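import Mathlib

/-!
# Non-uniqueness of Kantorovich potentials on a snowflake arc

For every `p > 1` there is a compact arc `K` in some `ℝ ^ d`, parametrised by a continuous
`f : [0, 1] → ℝ ^ d` with `|t - u| ≤ |f t - f u| ^ p`. For `ρ = μ = f_# Leb` and the cost
`|x - y| ^ p` both `(0, 0)` and `(f⁻¹, - f⁻¹)` are optimal pairs.
-/

set_option autoImplicit false

namespace Pool.Agent.Results.MP_ff06a2_an.SnowflakeNonuniqueness

open Set Filter MeasureTheory Topology

section defs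

variable {E : Type*} [NormedAddCommGroup E] [NormedSpace ℝ E] [MeasurableSpace E]

/-- The standing hypotheses (H). -/
structure HypH (ρ μ : Measure E) (c : E → E → ℝ) : Prop where
  bounded : Bornology.IsBounded μ.support
  smooth : ContDiff ℝ 1 (fun z : E × E => c z.1 z.2)
  dominated : ∃ a b : E → ℝ, UpperSemicontinuous a ∧ UpperSemicontinuous b ∧
    Integrable a ρ ∧ Integrable b μ ∧ ∀ x y, |c x y| ≤ a x + b y

/-- Admissible pairs for the dual problem. -/
def Admissible (ρ μ : Measure E) (c : E → E → ℝ) (φ ψ : E → ℝ) : Prop :=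
  Integrable φ ρ ∧ Integrable ψ μ ∧ ∀ x y, φ x + ψ y ≤ c x y

/-- Maximising pairs for the dual problem. -/
def Optimal (ρ μ : Measure E) (c : E → E → ℝ) (φ ψ : E → ℝ) : Prop :=
  Admissible ρ μ c φ ψ ∧ ∀ φ' ψ' : E → ℝ, Admissible ρ μ c φ' ψ' →
    ∫ x, φ' x ∂ρ + ∫ y, ψ' y ∂μ ≤ ∫ x, φ x ∂ρ + ∫ y, ψ y ∂μ

/-- Uniqueness of the potentials up to a constant. -/
def UniqueUpToConst (ρ μ : Measure E) (c : E → E → ℝ) : Prop :=
  ∀ φ₀ ψ₀ φ₁ ψ₁ : E → ℝ, Optimal ρ μ c φ₀ ψ₀ → Optimal ρ μ c φ₁ ψ₁ →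
    ∃ l : ℝ, (∀ᵐ x ∂ρ, φ₀ x - φ₁ x = l) ∧ ∀ᵐ y ∂μ, ψ₀ y - ψ₁ y = -l

end defs

section curve

theorem exp_diff_eq (x y : ℝ) :
    ‖Complex.exp (x * Complex.I) - Complex.exp (y * Complex.I)‖ =
      ‖Complex.exp (Complex.I * ((x - y : ℝ) : ℂ)) - 1‖ := by
  have : Complex.exp (x * Complex.I) - Complex.exp (y * Complex.I) =
      Complex.exp (y * Complex.I) * (Complex.exp (Complex.I * ((x - y : ℝ) : ℂ)) - 1) := by
    rw [mul_sub, ← Complex.exp_add, mul_one]
    congr 2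
    push_cast
    ring
  rw [this, norm_mul, Complex.norm_exp_ofReal_mul_I, one_mul]

theorem exp_diff_upper (x y : ℝ) :
    ‖Complex.exp (x * Complex.I) - Complex.exp (y * Complex.I)‖ ≤ |x - y| := by
  rw [exp_diff_eq]
  exact Real.norm_exp_I_mul_ofReal_sub_one_le

theorem exp_diff_two (x y : ℝ) :
    ‖Complex.exp (x * Complex.I) - Complex.exp (y * Complex.I)‖ ≤ 2 := by
  refine (norm_sub_le _ _).trans ?_
  rw [Complex.norm_exp_ofReal_mul_I, Complex.norm_exp_ofReal_mul_I]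
  norm_num

theorem exp_diff_lower (x y : ℝ) (h : |x - y| ≤ Real.pi) :
    2 / Real.pi * |x - y| ≤ ‖Complex.exp (x * Complex.I) - Complex.exp (y * Complex.I)‖ := by
  rw [exp_diff_eq, Complex.norm_exp_I_mul_ofReal_sub_one, norm_mul, Real.norm_eq_abs,
    Real.norm_eq_abs]
  have h2 : |(x - y) / 2| = |x - y| / 2 := by rw [abs_div, abs_two]
  have := Real.mul_abs_le_abs_sin (x := (x - y) / 2) (by rw [h2]; linarith)
  rw [h2] at this
  rw [abs_two]
  calc 2 / Real.pi * |x - y| = 2 * (2 / Real.pi * (|x - y| / 2)) := by ring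
    _ ≤ _ := by linarith

/-- The terms of the lacunary series. -/
noncomputable def term (lam : ℝ) (N j : ℕ) (t : ℝ) (m : ℕ) : ℂ :=
  (lam : ℂ) ^ (m * N + j) * Complex.exp (((Real.pi * 2 ^ (m * N + j) * t : ℝ) : ℂ) * Complex.I)

/-- The lacunary series with frequencies `2 ^ k`, `k ≡ j` modulo `N`. -/
noncomputable def FF (lam : ℝ) (N j : ℕ) (t : ℝ) : ℂ := ∑' m, term lam N j t m

theorem term_norm {lam : ℝ} (h0 : 0 < lam) (N j : ℕ) (t : ℝ) (m : ℕ) :
    ‖term lam N j t m‖ = lam ^ j * (lam ^ N) ^ m := by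
  rw [term, norm_mul, Complex.norm_exp_ofReal_mul_I, norm_pow, Complex.norm_real,
    Real.norm_of_nonneg h0.le, mul_one, ← pow_mul, ← pow_add]
  congr 1
  ring

theorem pow_lt_one' {lam : ℝ} (h0 : 0 < lam) (h1 : lam < 1) {N : ℕ} (hN : 1 ≤ N) :
    lam ^ N < 1 := pow_lt_one₀ h0.le h1 (by omega)

theorem term_summable {lam : ℝ} (h0 : 0 < lam) (h1 : lam < 1) {N : ℕ} (hN : 1 ≤ N) (j : ℕ)
    (t : ℝ) : Summable (term lam N j t) := by
  apply Summable.of_norm
  simp_rw [term_norm h0]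
  exact (summable_geometric_of_lt_one (by positivity) (pow_lt_one' h0 h1 hN)).mul_left _

theorem FF_continuous {lam : ℝ} (h0 : 0 < lam) (h1 : lam < 1) {N : ℕ} (hN : 1 ≤ N) (j : ℕ) :
    Continuous (FF lam N j) := by
  unfold FF
  refine continuous_tsum (u := fun m => lam ^ j * (lam ^ N) ^ m) ?_ ?_ ?_
  · intro m
    unfold term
    fun_prop
  · exact (summable_geometric_of_lt_one (by positivity) (pow_lt_one' h0 h1 hN)).mul_left _
  · intro m t
    rw [term_norm h0]

theorem term_sub_norm {lam : ℝ} (h0 : 0 < lam) (N j : ℕ) (t u : ℝ) (m : ℕ) :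
    ‖term lam N j t m - term lam N j u m‖ = lam ^ (m * N + j) *
      ‖Complex.exp (((Real.pi * 2 ^ (m * N + j) * t : ℝ) : ℂ) * Complex.I) -
        Complex.exp (((Real.pi * 2 ^ (m * N + j) * u : ℝ) : ℂ) * Complex.I)‖ := by
  rw [term, term, ← mul_sub, norm_mul, norm_pow, Complex.norm_real, Real.norm_of_nonneg h0.le]

theorem arg_sub (k : ℕ) (t u : ℝ) :
    |Real.pi * 2 ^ k * t - Real.pi * 2 ^ k * u| = Real.pi * 2 ^ k * |t - u| := by
  rw [← mul_sub, abs_mul, abs_of_nonneg (by positivity)]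

theorem term_sub_upper {lam : ℝ} (h0 : 0 < lam) (N j : ℕ) (t u : ℝ) (m : ℕ) :
    ‖term lam N j t m - term lam N j u m‖ ≤
      Real.pi * |t - u| * (2 * lam) ^ j * ((2 * lam) ^ N) ^ m := by
  rw [term_sub_norm h0]
  have h := exp_diff_upper (Real.pi * 2 ^ (m * N + j) * t) (Real.pi * 2 ^ (m * N + j) * u)
  rw [arg_sub] at h
  calc _ ≤ lam ^ (m * N + j) * (Real.pi * 2 ^ (m * N + j) * |t - u|) :=
        mul_le_mul_of_nonneg_left h (by positivity)
    _ = lam ^ (m * N + j) * 2 ^ (m * N + j) * (Real.pi * |t - u|) := by ring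
    _ = (2 * lam) ^ (j + N * m) * (Real.pi * |t - u|) := by
      rw [← mul_pow, mul_comm lam 2, show j + N * m = m * N + j by ring]
    _ = _ := by
      rw [pow_add, pow_mul]
      ring

theorem term_sub_two {lam : ℝ} (h0 : 0 < lam) (N j : ℕ) (t u : ℝ) (m : ℕ) :
    ‖term lam N j t m - term lam N j u m‖ ≤ 2 * lam ^ (m * N + j) := by
  rw [term_sub_norm h0, mul_comm]
  exact mul_le_mul_of_nonneg_right (exp_diff_two _ _) (by positivity)

theorem term_sub_lower {lam : ℝ} (h0 : 0 < lam) (N j : ℕ) (t u : ℝ) (m : ℕ)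
    (h : 2 ^ (m * N + j) * |t - u| ≤ 1) :
    2 * (lam ^ (m * N + j) * (2 ^ (m * N + j) * |t - u|)) ≤
      ‖term lam N j t m - term lam N j u m‖ := by
  rw [term_sub_norm h0]
  have h2 := exp_diff_lower (Real.pi * 2 ^ (m * N + j) * t) (Real.pi * 2 ^ (m * N + j) * u) (by
    rw [arg_sub, mul_assoc]
    exact mul_le_of_le_one_right Real.pi_pos.le h)
  rw [arg_sub] at h2
  calc _ = lam ^ (m * N + j) * (2 / Real.pi * (Real.pi * 2 ^ (m * N + j) * |t - u|)) := by
        field_simp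
    _ ≤ _ := mul_le_mul_of_nonneg_left h2 (by positivity)

theorem FF_sub_lower {lam : ℝ} (h0 : 0 < lam) (h1 : lam < 1) {N : ℕ} (hN : 1 ≤ N) (j : ℕ)
    (hq : lam ^ N ≤ 1 / 9) (hB : 1 + 4 * Real.pi ≤ (2 * lam) ^ N) (m0 : ℕ) (t u : ℝ)
    (ht : 2 ^ (m0 * N + j) * |t - u| ≤ 1) (ht' : 1 / 2 ≤ 2 ^ (m0 * N + j) * |t - u|) :
    lam ^ (m0 * N + j) / 2 ≤ ‖FF lam N j t - FF lam N j u‖ := by
  set n := m0 * N + j with hn
  set a : ℕ → ℂ := fun m => term lam N j t m - term lam N j u m with ha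
  have hsum : Summable a := (term_summable h0 h1 hN j t).sub (term_summable h0 h1 hN j u)
  have hF : FF lam N j t - FF lam N j u = ∑' m, a m := by
    rw [FF, FF, ← (term_summable h0 h1 hN j t).tsum_sub (term_summable h0 h1 hN j u)]
  have hsplit : ∑' m, a m = ∑ m ∈ Finset.range m0, a m + a m0 + ∑' m, a (m + (m0 + 1)) := by
    rw [← hsum.sum_add_tsum_nat_add (m0 + 1), Finset.sum_range_succ]
  have hq0 : 0 < lam ^ N := by positivity
  -- the head
  have hhead : ‖∑ m ∈ Finset.range m0, a m‖ ≤ lam ^ n * (2 ^ n * |t - u|) / 4 := by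
    have hpi := Real.pi_pos
    have hB1 : (2 * lam) ^ N ≠ 1 := by
      intro h
      rw [h] at hB
      linarith
    calc ‖∑ m ∈ Finset.range m0, a m‖ ≤ ∑ m ∈ Finset.range m0,
          Real.pi * |t - u| * (2 * lam) ^ j * ((2 * lam) ^ N) ^ m :=
          norm_sum_le_of_le _ fun m _ => term_sub_upper h0 N j t u m
      _ = Real.pi * |t - u| * (2 * lam) ^ j *
          ((((2 * lam) ^ N) ^ m0 - 1) / ((2 * lam) ^ N - 1)) := by
        rw [← Finset.mul_sum, geom_sum_eq hB1]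
      _ ≤ Real.pi * |t - u| * (2 * lam) ^ j * (((2 * lam) ^ N) ^ m0 / (4 * Real.pi)) := by
        apply mul_le_mul_of_nonneg_left _ (by positivity)
        apply div_le_div₀ (by positivity) (by linarith) (by positivity) (by linarith)
      _ = lam ^ n * (2 ^ n * |t - u|) / 4 := by
        have : lam ^ n * (2 : ℝ) ^ n = (2 * lam) ^ j * ((2 * lam) ^ N) ^ m0 := by
          rw [← mul_pow, ← pow_mul, ← pow_add, mul_comm lam 2, hn]
          congr 1
          ring
        calc _ = |t - u| * ((2 * lam) ^ j * ((2 * lam) ^ N) ^ m0) / 4 := by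
              field_simp
          _ = _ := by
              rw [← this]
              ring
  have hmain : 2 * (lam ^ n * (2 ^ n * |t - u|)) ≤ ‖a m0‖ := term_sub_lower h0 N j t u m0 ht
  have htail : ‖∑' m, a (m + (m0 + 1))‖ ≤ lam ^ n / 4 := by
    have hg := (hasSum_geometric_of_lt_one hq0.le (pow_lt_one' h0 h1 hN)).mul_left
      (2 * lam ^ n * lam ^ N)
    refine (tsum_of_norm_bounded hg ?_).trans ?_
    · intro m
      refine (term_sub_two h0 N j t u _).trans (le_of_eq ?_)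
      rw [← pow_mul, mul_assoc, mul_assoc, ← pow_add, ← pow_add, hn]
      congr 2
      ring
    · have h3 : lam ^ N * (1 - lam ^ N)⁻¹ ≤ 1 / 8 := by
        rw [← div_eq_mul_inv, div_le_iff₀ (by linarith)]
        linarith
      calc 2 * lam ^ n * lam ^ N * (1 - lam ^ N)⁻¹ = 2 * lam ^ n * (lam ^ N * (1 - lam ^ N)⁻¹) := by
            ring
        _ ≤ 2 * lam ^ n * (1 / 8) := mul_le_mul_of_nonneg_left h3 (by positivity)
        _ = lam ^ n / 4 := by ring
  have hX : lam ^ n * (1 / 2) ≤ lam ^ n * (2 ^ n * |t - u|) :=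
    mul_le_mul_of_nonneg_left ht' (by positivity)
  have htri : ‖a m0‖ ≤ ‖∑' m, a m‖ + ‖∑ m ∈ Finset.range m0, a m‖ +
      ‖∑' m, a (m + (m0 + 1))‖ := by
    have e : a m0 = ∑' m, a m - ∑ m ∈ Finset.range m0, a m - ∑' m, a (m + (m0 + 1)) := by
      rw [hsplit]
      ring
    calc ‖a m0‖ = ‖∑' m, a m - ∑ m ∈ Finset.range m0, a m - ∑' m, a (m + (m0 + 1))‖ := by
          rw [← e]
      _ ≤ _ := (norm_sub_le _ _).trans (add_le_add_left (norm_sub_le _ _) _)
  rw [hF]
  have hl : 0 < lam ^ n := by positivity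
  linarith

/-- The snowflake arc. -/
noncomputable def ff (lam : ℝ) (N : ℕ) (t : ℝ) : EuclideanSpace ℝ (Fin (N + N)) :=
  WithLp.toLp 2 (Fin.append (fun j : Fin N => 4 * (FF lam N j t).re)
    (fun j : Fin N => 4 * (FF lam N j t).im))

theorem ff_continuous {lam : ℝ} (h0 : 0 < lam) (h1 : lam < 1) {N : ℕ} (hN : 1 ≤ N) :
    Continuous (ff lam N) := by
  unfold ff
  refine (PiLp.continuous_toLp 2 _).comp (continuous_pi fun i => ?_)
  refine Fin.addCases (fun j => ?_) (fun j => ?_) i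
  · simp only [Fin.append_left]
    exact continuous_const.mul (Complex.continuous_re.comp (FF_continuous h0 h1 hN j))
  · simp only [Fin.append_right]
    exact continuous_const.mul (Complex.continuous_im.comp (FF_continuous h0 h1 hN j))

theorem ff_left (lam : ℝ) (N : ℕ) (j : Fin N) (t : ℝ) :
    ff lam N t (Fin.castAdd N j) = 4 * (FF lam N j t).re := by
  rw [ff, PiLp.toLp_apply, Fin.append_left]

theorem ff_right (lam : ℝ) (N : ℕ) (j : Fin N) (t : ℝ) :
    ff lam N t (Fin.natAdd N j) = 4 * (FF lam N j t).im := by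
  rw [ff, PiLp.toLp_apply, Fin.append_right]

theorem ff_lower (lam : ℝ) (N : ℕ) (j : Fin N) (t u : ℝ) :
    2 * ‖FF lam N j t - FF lam N j u‖ ≤ ‖ff lam N t - ff lam N u‖ := by
  have h1 := PiLp.norm_apply_le (ff lam N t - ff lam N u) (Fin.castAdd N j)
  have h2 := PiLp.norm_apply_le (ff lam N t - ff lam N u) (Fin.natAdd N j)
  have e1 : (ff lam N t - ff lam N u) (Fin.castAdd N j) =
      4 * (FF lam N j t - FF lam N j u).re := by
    rw [PiLp.sub_apply, ff_left, ff_left, Complex.sub_re]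
    ring
  have e2 : (ff lam N t - ff lam N u) (Fin.natAdd N j) =
      4 * (FF lam N j t - FF lam N j u).im := by
    rw [PiLp.sub_apply, ff_right, ff_right, Complex.sub_im]
    ring
  rw [e1, Real.norm_eq_abs, abs_mul, abs_of_nonneg (by norm_num : (0 : ℝ) ≤ 4)] at h1
  rw [e2, Real.norm_eq_abs, abs_mul, abs_of_nonneg (by norm_num : (0 : ℝ) ≤ 4)] at h2
  have h3 := Complex.norm_le_abs_re_add_abs_im (FF lam N j t - FF lam N j u)
  linarith

/-- For every `p > 1` there is a `1 / p`-snowflake arc in a Euclidean space. -/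
theorem exists_curve (p : ℝ) (hp : 1 < p) :
    ∃ (d : ℕ) (f : ℝ → EuclideanSpace ℝ (Fin d)), 1 ≤ d ∧ Continuous f ∧
      ∀ t ∈ Icc (0 : ℝ) 1, ∀ u ∈ Icc (0 : ℝ) 1, |t - u| ≤ ‖f t - f u‖ ^ p := by
  have hp0 : 0 < p := by linarith
  set lam : ℝ := (1 / 2 : ℝ) ^ (1 / p) with hlam
  have h0 : 0 < lam := by positivity
  have h1 : lam < 1 := Real.rpow_lt_one (by norm_num) (by norm_num) (by positivity)
  have h2 : 1 < 2 * lam := by
    have : (1 / 2 : ℝ) ^ (1 : ℝ) < (1 / 2 : ℝ) ^ (1 / p) :=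
      Real.rpow_lt_rpow_of_exponent_gt (by norm_num) (by norm_num) (by
        rw [div_lt_one hp0]
        exact hp)
    rw [Real.rpow_one] at this
    linarith
  have e1 : ∀ᶠ N : ℕ in atTop, lam ^ N < 1 / 9 :=
    (tendsto_pow_atTop_nhds_zero_of_lt_one h0.le h1).eventually (gt_mem_nhds (by norm_num))
  have e2 : ∀ᶠ N : ℕ in atTop, 1 + 4 * Real.pi ≤ (2 * lam) ^ N :=
    (tendsto_pow_atTop_atTop_of_one_lt h2).eventually (eventually_ge_atTop _)
  obtain ⟨N, hN9, hNB, hN1⟩ := (e1.and (e2.and (eventually_ge_atTop 1))).exists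
  refine ⟨N + N, ff lam N, by omega, ff_continuous h0 h1 hN1, ?_⟩
  intro t ht u hu
  rcases eq_or_ne t u with rfl | htu
  · simp [Real.zero_rpow hp0.ne']
  have hpos : 0 < |t - u| := abs_pos.2 (sub_ne_zero.2 htu)
  have hle : |t - u| ≤ 1 := by
    rw [abs_le]
    constructor <;> linarith [ht.1, ht.2, hu.1, hu.2]
  obtain ⟨n, hn1, hn2⟩ := exists_nat_pow_near_of_lt_one hpos hle
    (show (0 : ℝ) < 1 / 2 by norm_num) (by norm_num)
  have hNpos : 0 < N := by omega
  set j : Fin N := ⟨n % N, Nat.mod_lt _ hNpos⟩ with hj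
  have hnn : n / N * N + (j : ℕ) = n := by
    rw [hj]
    exact Nat.div_add_mod' n N
  have h2n : (2 : ℝ) ^ n * (1 / 2) ^ n = 1 := by
    rw [← mul_pow]
    norm_num
  have hkey := FF_sub_lower h0 h1 hN1 j hN9.le hNB (n / N) t u (by
      rw [hnn]
      calc (2 : ℝ) ^ n * |t - u| ≤ 2 ^ n * (1 / 2) ^ n :=
            mul_le_mul_of_nonneg_left hn2 (by positivity)
        _ = 1 := h2n) (by
      rw [hnn]
      calc (1 / 2 : ℝ) = 2 ^ n * (1 / 2) ^ (n + 1) := by rw [pow_succ, ← mul_assoc, h2n, one_mul]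
        _ ≤ 2 ^ n * |t - u| := mul_le_mul_of_nonneg_left hn1.le (by positivity))
  rw [hnn] at hkey
  have hff := ff_lower lam N j t u
  have hfin : lam ^ n ≤ ‖ff lam N t - ff lam N u‖ := by linarith
  calc |t - u| ≤ (1 / 2) ^ n := hn2
    _ = (lam ^ n) ^ p := by
      have h12 : (0 : ℝ) ≤ 1 / 2 := by norm_num
      have e4 : 1 / p * (n : ℝ) * p = n := by field_simp
      rw [hlam, ← Real.rpow_natCast ((1 / 2 : ℝ) ^ (1 / p)) n, ← Real.rpow_mul h12,
        ← Real.rpow_mul h12, e4, Real.rpow_natCast]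
    _ ≤ _ := Real.rpow_le_rpow (by positivity) hfin hp0.le

end curve

section measure

variable {d : ℕ}

/-- The image of Lebesgue measure on `[0, 1]`. -/
noncomputable def rho (f : ℝ → EuclideanSpace ℝ (Fin d)) :
    Measure (EuclideanSpace ℝ (Fin d)) := Measure.map f (volume.restrict (Icc (0 : ℝ) 1))

theorem rho_prob {f : ℝ → EuclideanSpace ℝ (Fin d)} (hf : Continuous f) :
    IsProbabilityMeasure (rho f) := by
  have : IsProbabilityMeasure (volume.restrict (Icc (0 : ℝ) 1)) :=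
    ⟨by rw [Measure.restrict_apply_univ, Real.volume_Icc]; norm_num⟩
  exact Measure.isProbabilityMeasure_map hf.measurable.aemeasurable

theorem rho_image {f : ℝ → EuclideanSpace ℝ (Fin d)} (hf : Continuous f) :
    ∀ᵐ x ∂(rho f), x ∈ f '' Icc (0 : ℝ) 1 := by
  have hc : IsCompact (f '' Icc (0 : ℝ) 1) := isCompact_Icc.image hf
  refine (ae_map_iff (p := fun x => x ∈ f '' Icc (0 : ℝ) 1) hf.measurable.aemeasurable
    hc.isClosed.measurableSet).2 ?_
  rw [ae_restrict_iff' measurableSet_Icc]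
  exact Eventually.of_forall fun t ht => ⟨t, ht, rfl⟩

theorem rho_support {f : ℝ → EuclideanSpace ℝ (Fin d)} (hf : Continuous f) :
    (rho f).support = f '' Icc (0 : ℝ) 1 := by
  have hc : IsCompact (f '' Icc (0 : ℝ) 1) := isCompact_Icc.image hf
  apply Subset.antisymm
  · exact Measure.support_subset_of_isClosed hc.isClosed (rho_image hf)
  · rintro _ ⟨t, ht, rfl⟩
    rw [Measure.support_eq_forall_isOpen]
    intro U hU hUo
    rw [rho, Measure.map_apply hf.measurable hUo.measurableSet,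
      Measure.restrict_apply (hUo.preimage hf).measurableSet]
    have ho : IsOpen (f ⁻¹' U) := hUo.preimage hf
    have htc : t ∈ closure (Ioo (0 : ℝ) 1) := by
      rw [closure_Ioo (by norm_num)]
      exact ht
    obtain ⟨s, hs1, hs2⟩ := mem_closure_iff.1 htc _ ho hU
    have hpos : 0 < volume (f ⁻¹' U ∩ Ioo (0 : ℝ) 1) :=
      (ho.inter isOpen_Ioo).measure_pos volume ⟨s, hs1, hs2⟩
    exact lt_of_lt_of_le hpos (measure_mono (inter_subset_inter_right _ Ioo_subset_Icc_self))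

/-- The inverse of `f`, extended by the value `-1`. -/
noncomputable def inv (f : ℝ → EuclideanSpace ℝ (Fin d)) (x : EuclideanSpace ℝ (Fin d)) : ℝ := by
  classical
  exact if x ∈ f '' Icc (0 : ℝ) 1 then Function.invFunOn f (Icc 0 1) x else -1

/-- Minus the inverse of `f`, extended by the value `-1`. -/
noncomputable def inv' (f : ℝ → EuclideanSpace ℝ (Fin d)) (x : EuclideanSpace ℝ (Fin d)) : ℝ := by
  classical
  exact if x ∈ f '' Icc (0 : ℝ) 1 then -Function.invFunOn f (Icc 0 1) x else -1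

theorem inj_of {p : ℝ} (hp : 1 < p) {f : ℝ → EuclideanSpace ℝ (Fin d)}
    (h : ∀ t ∈ Icc (0 : ℝ) 1, ∀ u ∈ Icc (0 : ℝ) 1, |t - u| ≤ ‖f t - f u‖ ^ p) :
    InjOn f (Icc 0 1) := by
  intro t ht u hu htu
  have := h t ht u hu
  rw [htu, sub_self, norm_zero, Real.zero_rpow (by linarith)] at this
  have h2 := abs_nonpos_iff.1 this
  linarith

theorem inv_apply {p : ℝ} (hp : 1 < p) {f : ℝ → EuclideanSpace ℝ (Fin d)}
    (h : ∀ t ∈ Icc (0 : ℝ) 1, ∀ u ∈ Icc (0 : ℝ) 1, |t - u| ≤ ‖f t - f u‖ ^ p) {t : ℝ}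
    (ht : t ∈ Icc (0 : ℝ) 1) : inv f (f t) = t ∧ inv' f (f t) = -t := by
  have hm : f t ∈ f '' Icc (0 : ℝ) 1 := ⟨t, ht, rfl⟩
  have := (inj_of hp h).leftInvOn_invFunOn ht
  simp only [inv, inv', if_pos hm, this, and_self]

theorem inv_of_notMem {f : ℝ → EuclideanSpace ℝ (Fin d)} {x : EuclideanSpace ℝ (Fin d)}
    (hx : x ∉ f '' Icc (0 : ℝ) 1) : inv f x = -1 ∧ inv' f x = -1 := by
  simp only [inv, inv', if_neg hx, and_self]

theorem inv_measurable {p : ℝ} (hp : 1 < p) {f : ℝ → EuclideanSpace ℝ (Fin d)}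
    (hf : Continuous f)
    (h : ∀ t ∈ Icc (0 : ℝ) 1, ∀ u ∈ Icc (0 : ℝ) 1, |t - u| ≤ ‖f t - f u‖ ^ p) :
    Measurable (inv f) ∧ Measurable (inv' f) := by
  classical
  have hc : IsCompact (f '' Icc (0 : ℝ) 1) := isCompact_Icc.image hf
  have hcont : ContinuousOn (Function.invFunOn f (Icc (0 : ℝ) 1)) (f '' Icc (0 : ℝ) 1) := by
    rintro _ ⟨t, ht, rfl⟩
    rw [ContinuousWithinAt, tendsto_iff_norm_sub_tendsto_zero]
    have hlim : Tendsto (fun x => ‖x - f t‖ ^ p) (𝓝[f '' Icc (0 : ℝ) 1] (f t)) (𝓝 0) := by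
      have : Continuous fun x : EuclideanSpace ℝ (Fin d) => ‖x - f t‖ ^ p :=
        (continuous_id.sub continuous_const).norm.rpow_const fun _ => Or.inr (by linarith)
      have h2 := (this.tendsto (f t)).mono_left
        (nhdsWithin_le_nhds (a := f t) (s := f '' Icc (0 : ℝ) 1))
      rw [sub_self, norm_zero, Real.zero_rpow (by linarith)] at h2
      exact h2
    refine squeeze_zero' (Eventually.of_forall fun x => norm_nonneg _) ?_ hlim
    filter_upwards [self_mem_nhdsWithin] with x hx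
    obtain ⟨s, hs, rfl⟩ := hx
    rw [(inj_of hp h).leftInvOn_invFunOn hs, (inj_of hp h).leftInvOn_invFunOn ht]
    exact h s hs t ht
  constructor
  · exact hcont.measurable_piecewise continuousOn_const hc.isClosed.measurableSet
  · exact hcont.neg.measurable_piecewise continuousOn_const hc.isClosed.measurableSet

theorem inv_bound {p : ℝ} (hp : 1 < p) {f : ℝ → EuclideanSpace ℝ (Fin d)}
    (h : ∀ t ∈ Icc (0 : ℝ) 1, ∀ u ∈ Icc (0 : ℝ) 1, |t - u| ≤ ‖f t - f u‖ ^ p)
    (x : EuclideanSpace ℝ (Fin d)) : ‖inv f x‖ ≤ 1 ∧ ‖inv' f x‖ ≤ 1 := by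
  by_cases hx : x ∈ f '' Icc (0 : ℝ) 1
  · obtain ⟨t, ht, rfl⟩ := hx
    rw [(inv_apply hp h ht).1, (inv_apply hp h ht).2, norm_neg, Real.norm_of_nonneg ht.1]
    exact ⟨ht.2, ht.2⟩
  · rw [(inv_of_notMem hx).1, (inv_of_notMem hx).2]
    simp

theorem admissible_inv {p : ℝ} (hp : 1 < p) {f : ℝ → EuclideanSpace ℝ (Fin d)}
    (hf : Continuous f)
    (h : ∀ t ∈ Icc (0 : ℝ) 1, ∀ u ∈ Icc (0 : ℝ) 1, |t - u| ≤ ‖f t - f u‖ ^ p) :
    Admissible (rho f) (rho f) (fun x y => ‖x - y‖ ^ p) (inv f) (inv' f) := by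
  have := rho_prob hf
  refine ⟨?_, ?_, ?_⟩
  · exact Integrable.of_bound (inv_measurable hp hf h).1.aestronglyMeasurable 1
      (Eventually.of_forall fun x => (inv_bound hp h x).1)
  · exact Integrable.of_bound (inv_measurable hp hf h).2.aestronglyMeasurable 1
      (Eventually.of_forall fun x => (inv_bound hp h x).2)
  · intro x y
    have hc : 0 ≤ ‖x - y‖ ^ p := by positivity
    have hx1 := (abs_le.1 (inv_bound hp h x).1).2
    have hy1 := (abs_le.1 (inv_bound hp h y).2).2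
    by_cases hx : x ∈ f '' Icc (0 : ℝ) 1
    · by_cases hy : y ∈ f '' Icc (0 : ℝ) 1
      · obtain ⟨t, ht, rfl⟩ := hx
        obtain ⟨u, hu, rfl⟩ := hy
        rw [(inv_apply hp h ht).1, (inv_apply hp h hu).2]
        have := h t ht u hu
        have h2 := le_abs_self (t - u)
        dsimp only
        linarith
      · rw [(inv_of_notMem hy).2]
        dsimp only
        linarith
    · rw [(inv_of_notMem hx).1]
      dsimp only
      linarith

theorem value_le_zero {ρ : Measure (EuclideanSpace ℝ (Fin d))} {p : ℝ} (hp : 1 < p)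
    {φ ψ : EuclideanSpace ℝ (Fin d) → ℝ} (h : Admissible ρ ρ (fun x y => ‖x - y‖ ^ p) φ ψ) :
    ∫ x, φ x ∂ρ + ∫ y, ψ y ∂ρ ≤ 0 := by
  rw [← integral_add h.1 h.2.1]
  apply integral_nonpos
  intro x
  have := h.2.2 x x
  dsimp only at this
  rw [sub_self, norm_zero, Real.zero_rpow (by linarith)] at this
  exact this

theorem optimal_zero {ρ : Measure (EuclideanSpace ℝ (Fin d))} {p : ℝ} (hp : 1 < p) :
    Optimal ρ ρ (fun x y => ‖x - y‖ ^ p) (fun _ => 0) (fun _ => 0) := by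
  refine ⟨⟨integrable_zero _ _ _, integrable_zero _ _ _, ?_⟩, ?_⟩
  · intro x y
    dsimp only
    rw [add_zero]
    positivity
  · intro φ ψ h
    have := value_le_zero hp h
    simpa using this

theorem inv_ae {p : ℝ} (hp : 1 < p) {f : ℝ → EuclideanSpace ℝ (Fin d)} (hf : Continuous f)
    (h : ∀ t ∈ Icc (0 : ℝ) 1, ∀ u ∈ Icc (0 : ℝ) 1, |t - u| ≤ ‖f t - f u‖ ^ p) :
    ∀ᵐ x ∂(rho f), inv' f x = - inv f x := by
  filter_upwards [rho_image hf] with x hx
  obtain ⟨t, ht, rfl⟩ := hx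
  rw [(inv_apply hp h ht).1, (inv_apply hp h ht).2]

theorem optimal_inv {p : ℝ} (hp : 1 < p) {f : ℝ → EuclideanSpace ℝ (Fin d)}
    (hf : Continuous f)
    (h : ∀ t ∈ Icc (0 : ℝ) 1, ∀ u ∈ Icc (0 : ℝ) 1, |t - u| ≤ ‖f t - f u‖ ^ p) :
    Optimal (rho f) (rho f) (fun x y => ‖x - y‖ ^ p) (inv f) (inv' f) := by
  refine ⟨admissible_inv hp hf h, ?_⟩
  intro φ ψ h2
  have h3 := value_le_zero hp h2
  rw [integral_congr_ae (inv_ae hp hf h), integral_neg, add_neg_cancel]
  exact h3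

theorem not_unique {p : ℝ} (hp : 1 < p) {f : ℝ → EuclideanSpace ℝ (Fin d)}
    (hf : Continuous f)
    (h : ∀ t ∈ Icc (0 : ℝ) 1, ∀ u ∈ Icc (0 : ℝ) 1, |t - u| ≤ ‖f t - f u‖ ^ p) :
    ¬ UniqueUpToConst (rho f) (rho f) (fun x y => ‖x - y‖ ^ p) := by
  intro hU
  obtain ⟨l, hl, -⟩ := hU _ _ _ _ (optimal_zero hp) (optimal_inv hp hf h)
  have h1 := ae_of_ae_map hf.measurable.aemeasurable hl
  have h2 : ∀ᵐ t ∂(volume.restrict (Icc (0 : ℝ) 1)), t ∈ Icc (0 : ℝ) 1 :=
    ae_restrict_mem measurableSet_Icc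
  have h3 : ∀ᵐ t ∂(volume.restrict (Icc (0 : ℝ) 1)), t ≠ -l := by
    apply ae_restrict_of_ae
    rw [ae_iff]
    simp
  have h4 : ∀ᵐ t ∂(volume.restrict (Icc (0 : ℝ) 1)), False := by
    filter_upwards [h1, h2, h3] with t a1 a2 a3
    rw [(inv_apply hp h a2).1] at a1
    apply a3
    linarith
  rw [ae_iff] at h4
  simp at h4

theorem hypH {p : ℝ} (hp : 1 < p) {f : ℝ → EuclideanSpace ℝ (Fin d)} (hf : Continuous f) :
    HypH (rho f) (rho f) (fun x y => ‖x - y‖ ^ p) := by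
  have := rho_prob hf
  have hc : IsCompact (f '' Icc (0 : ℝ) 1) := isCompact_Icc.image hf
  have hcont : Continuous fun x : EuclideanSpace ℝ (Fin d) => (2 * ‖x‖) ^ p :=
    (continuous_const.mul continuous_norm).rpow_const fun _ => Or.inr (by linarith)
  have hint : Integrable (fun x : EuclideanSpace ℝ (Fin d) => (2 * ‖x‖) ^ p) (rho f) := by
    obtain ⟨C, hC⟩ := hc.exists_bound_of_continuousOn hcont.continuousOn
    refine Integrable.of_bound hcont.aestronglyMeasurable C ?_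
    filter_upwards [rho_image hf] with x hx
    exact hC x hx
  refine ⟨?_, ?_, ?_⟩
  · rw [rho_support hf]
    exact hc.isBounded
  · exact (contDiff_norm_rpow hp).comp (contDiff_fst.sub contDiff_snd)
  · refine ⟨_, _, hcont.upperSemicontinuous, hcont.upperSemicontinuous, hint, hint, ?_⟩
    intro x y
    have hp0 : 0 ≤ p := by linarith
    rw [abs_of_nonneg (by positivity)]
    have h1 := norm_sub_le x y
    rcases le_total ‖x‖ ‖y‖ with hxy | hxy
    · have h2 : ‖x - y‖ ^ p ≤ (2 * ‖y‖) ^ p :=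
        Real.rpow_le_rpow (norm_nonneg _) (by linarith) hp0
      have h3 : 0 ≤ (2 * ‖x‖) ^ p := by positivity
      linarith
    · have h2 : ‖x - y‖ ^ p ≤ (2 * ‖x‖) ^ p :=
        Real.rpow_le_rpow (norm_nonneg _) (by linarith) hp0
      have h3 : 0 ≤ (2 * ‖y‖) ^ p := by positivity
      linarith

end measure

/-- For every `p > 1` there are `d ≥ 1` and a probability measure `ρ` on `ℝ ^ d` whose support is
compact and path connected, such that (H) holds for `ρ`, `μ = ρ` and the cost `|x - y| ^ p`, the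
dual problem has an optimal pair, but the optimal pairs are not unique up to a constant. -/
theorem result (p : ℝ) (hp : 1 < p) :
    ∃ (d : ℕ) (ρ : Measure (EuclideanSpace ℝ (Fin d))), 1 ≤ d ∧ IsProbabilityMeasure ρ ∧
      IsCompact ρ.support ∧ IsPathConnected ρ.support ∧ IsConnected ρ.support ∧
      HypH ρ ρ (fun x y => ‖x - y‖ ^ p) ∧
      (∃ φ ψ, Optimal ρ ρ (fun x y => ‖x - y‖ ^ p) φ ψ) ∧
      ¬ UniqueUpToConst ρ ρ (fun x y => ‖x - y‖ ^ p) := by
  obtain ⟨d, f, hd, hf, h⟩ := exists_curve p hp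
  have hpc : IsPathConnected (rho f).support := by
    rw [rho_support hf]
    exact ((convex_Icc (0 : ℝ) 1).isPathConnected (nonempty_Icc.2 zero_le_one)).image hf
  refine ⟨d, rho f, hd, rho_prob hf, ?_, hpc, hpc.isConnected, hypH hp hf,
    ⟨_, _, optimal_zero hp⟩, not_unique hp hf h⟩
  rw [rho_support hf]
  exact isCompact_Icc.image hf

end Pool.Agent.Results.MP_ff06a2_an.SnowflakeNonuniqueness
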